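import Pool.Agent.Q326.Sat.Linear

/-!
# MP_2b57cc_co: the induced saturation number of a disjoint union of chains is at most linear

For all `m ≥ 1` and all chain lengths `i_1, …, i_m ≥ 1` there is a constant `C` with
`sat*(n, C_{i_1} + ⋯ + C_{i_m}) ≤ C * n` for every `n ≥ 1`.
-/

namespace Pool.Agent.Results.MP_2b57cc_co.LinearBound

open Pool.Agent.Q326.Sat

/-- Let `m ≥ 1` and let `i_1, …, i_m` be positive integers. There is a constant `C` such that for
every `n ≥ 1` the induced saturation number `sat*(n, C_{i_1} + ⋯ + C_{i_m})` is attained by an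
induced saturated family of subsets of `[n]`, and is at most `C * n`. -/
theorem result {m : ℕ} (hm : 1 ≤ m) (i : Fin m → ℕ) (hpos : ∀ j, 1 ≤ i j) :
    ∃ C : ℕ, ∀ n : ℕ, 1 ≤ n →
      (∃ F : Finset (Finset (Fin n)), IsSaturated (Chains i) F ∧
        F.card = satStar n (Chains i)) ∧ satStar n (Chains i) ≤ C * n := by
  obtain ⟨C, hC⟩ := linear_saturation hm i hpos
  refine ⟨C, fun n hn => ?_⟩
  obtain ⟨F, hF, hFC⟩ := hC n hn
  have hmem : F.card ∈ {t | ∃ F : Finset (Finset (Fin n)), IsSaturated (Chains i) F ∧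
      F.card = t} := ⟨F, hF, rfl⟩
  exact ⟨Nat.sInf_mem ⟨_, hmem⟩, (Nat.sInf_le hmem).trans hFC⟩

end Pool.Agent.Results.MP_2b57cc_co.LinearBound
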